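import Mathlib
import Pool.Agent.Y969.SM.Stm2
import Pool.Agent.H306R2.ZetaGrowth

set_option autoImplicit false

/-! Project SX: continuity of the window means. -/

namespace Pool.Agent.Y77.SX

open Finset Filter Topology MeasureTheory Complex
open Pool.Agent.Y969.GP (ff)
open Pool.Agent.H306R2.SM (om cl)
open Pool.Agent.Y969.SM

theorem cl_cont : Continuous cl := by unfold cl; fun_prop

theorem zeta_cont : Continuous (fun t : ℝ => riemannZeta (cl t)) := by
  rw [continuous_iff_continuousAt]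
  intro t
  have h1 : cl t ≠ 1 := by
    intro h
    have := congrArg Complex.re h
    simp [cl] at this
  have h2 := (differentiableAt_riemannZeta h1).continuousAt
  exact ContinuousAt.comp (f := cl) h2 cl_cont.continuousAt

theorem ff_eq (u : ℝ) : ff u = ‖riemannZeta (cl u)‖ ^ 2 := by
  unfold ff cl
  rw [mul_comm I]

theorem ff_cont : Continuous ff := by
  have h : ff = fun u => ‖riemannZeta (cl u)‖ ^ 2 := funext ff_eq
  rw [h]
  exact (zeta_cont.norm).pow 2

theorem zeta_bound (t : ℝ) : ‖riemannZeta (cl t)‖ ≤ 24 * (1 + |t|) ^ 2 := by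
  have h := Pool.Agent.H306R2.zeta_norm_le (s := cl t) (by simp [cl]) (by
    have h1 : |(cl t - 1).re| ≤ ‖cl t - 1‖ := Complex.abs_re_le_norm _
    have h2 : |(cl t - 1).re| = 1 / 2 := by
      simp only [cl, Complex.sub_re, Complex.add_re, Complex.mul_re, Complex.ofReal_re,
        Complex.I_re, mul_zero, Complex.ofReal_im, Complex.I_im, mul_one, sub_self, add_zero,
        Complex.one_re]
      norm_num
    linarith)
  have h3 : ‖cl t‖ ≤ 1 / 2 + |t| := by
    unfold cl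
    refine (norm_add_le _ _).trans ?_
    rw [norm_mul, Complex.norm_real, Complex.norm_I, mul_one, Real.norm_eq_abs]
    norm_num
  refine h.trans ?_
  have h5 := abs_nonneg t
  have h4 : (‖cl t‖ + 1) ^ 2 ≤ (2 * (1 + |t|)) ^ 2 := by
    apply pow_le_pow_left₀ (by positivity)
    linarith
  nlinarith

theorem ff_bound (u : ℝ) : ff u ≤ 576 * (1 + |u|) ^ 4 := by
  rw [ff_eq]
  calc ‖riemannZeta (cl u)‖ ^ 2 ≤ (24 * (1 + |u|) ^ 2) ^ 2 :=
        pow_le_pow_left₀ (norm_nonneg _) (zeta_bound u) 2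
    _ = _ := by ring

theorem ff_nonneg (u : ℝ) : 0 ≤ ff u := by
  rw [ff_eq]
  positivity

theorem om_nonneg (k : ℕ) {δ t : ℝ} (hδ : 0 < δ) (ht : 0 ≤ t) : 0 ≤ om k δ t := by
  unfold om; positivity

theorem om_cont (k : ℕ) (δ : ℝ) : Continuous (om k δ) := by
  unfold om; fun_prop

/-- integrability of `om * (1+t)^A` -/
theorem om_poly (k A : ℕ) {δ : ℝ} (hδ : 0 < δ) :
    IntegrableOn (fun t : ℝ => om k δ t * (1 + t) ^ A) (Set.Ioi 0) := by
  have h1 : ∀ j : ℕ, IntegrableOn (fun t : ℝ => t ^ (k + j) * Real.exp (-(δ * t))) (Set.Ioi 0) := by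
    intro j
    have := Real.GammaIntegral_convergent (s := (k + j : ℕ) + 1) (by positivity)
    have h2 := (integrableOn_Ioi_comp_mul_left_iff (fun x : ℝ => Real.exp (-x) * x ^ (((k + j : ℕ):ℝ) + 1 - 1)) 0 hδ).mpr
      (by simpa using this)
    have h3 : IntegrableOn (fun x => (δ ^ (k + j))⁻¹ *
        (Real.exp (-(δ * x)) * (δ * x) ^ (((k + j : ℕ) : ℝ) + 1 - 1))) (Set.Ioi 0) :=
      h2.const_mul ((δ ^ (k + j))⁻¹)
    refine h3.congr_fun (fun t ht => ?_) measurableSet_Ioi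
    have ht0 : 0 < t := ht
    simp only [add_sub_cancel_right]
    rw [Real.rpow_natCast, mul_pow]
    field_simp
  have h4 : (fun t : ℝ => om k δ t * (1 + t) ^ A) = fun t : ℝ =>
      ∑ j ∈ range (A + 1), (δ ^ (k + 1) / (k.factorial : ℝ) * (A.choose j : ℝ)) *
        (t ^ (k + j) * Real.exp (-(δ * t))) := by
    funext t
    rw [add_comm 1 t, add_pow, mul_sum]
    refine sum_congr rfl fun j _ => ?_
    unfold om
    rw [pow_add]
    ring
  rw [h4]
  exact integrable_finsetSum _ fun j _ => (h1 j).const_mul _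

/-- comparison of Gamma densities -/
theorem om_le (κ : ℕ) (hκ : 1 ≤ κ) {T₀ T t : ℝ} (hT₀ : 0 < T₀) (h1 : T₀ / 2 < T) (h2 : T < 2 * T₀)
    (ht : 0 < t) : om κ (κ / T) t ≤ 4 ^ (κ + 1) * om κ (κ / (2 * T₀)) t := by
  have hκ' : (0 : ℝ) < κ := by exact_mod_cast hκ
  have hT : 0 < T := by linarith
  have e1 : (κ : ℝ) / T ≤ 4 * (κ / (2 * T₀)) := by
    rw [div_le_iff₀ hT]
    have : 4 * ((κ : ℝ) / (2 * T₀)) * T = κ * (2 * T / T₀) := by
      field_simp
      ring
    rw [this]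
    have h3 : 1 ≤ 2 * T / T₀ := by
      rw [le_div_iff₀ hT₀]
      linarith
    nlinarith
  have e2 : (κ : ℝ) / (2 * T₀) ≤ κ / T := div_le_div_of_nonneg_left hκ'.le hT h2.le
  have e3 : ((κ : ℝ) / T) ^ (κ + 1) ≤ 4 ^ (κ + 1) * (κ / (2 * T₀)) ^ (κ + 1) := by
    rw [← mul_pow]
    exact pow_le_pow_left₀ (by positivity) e1 _
  have e4 : Real.exp (-(κ / T * t)) ≤ Real.exp (-(κ / (2 * T₀) * t)) := by
    apply Real.exp_le_exp.2
    have := mul_le_mul_of_nonneg_right e2 ht.le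
    linarith
  have e5 := Real.exp_pos (-((κ : ℝ) / T * t))
  unfold om
  rw [← mul_div_assoc]
  refine div_le_div_of_nonneg_right ?_ (by positivity)
  calc ((κ : ℝ) / T) ^ (κ + 1) * t ^ κ * Real.exp (-(κ / T * t))
      ≤ (4 ^ (κ + 1) * (κ / (2 * T₀)) ^ (κ + 1)) * t ^ κ * Real.exp (-(κ / (2 * T₀) * t)) := by
        refine mul_le_mul (mul_le_mul_of_nonneg_right e3 (by positivity)) e4 e5.le (by positivity)
    _ = _ := by ring

/-- CTW: continuity of the window means -/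
theorem t_CTW : S_CTW := by
  intro n κ hκ
  rintro ⟨T₀, c₀⟩ ⟨hT₀, _⟩
  have hT₀' : 0 < T₀ := hT₀
  have hκ' : (0 : ℝ) < κ := by exact_mod_cast hκ
  refine ContinuousAt.continuousWithinAt ?_
  set R : ℝ := ‖c₀‖ + 1 with hR
  have hR1 : 0 ≤ R := by positivity
  have hnhds : ∀ᶠ x : ℝ × (Fin n → ℝ) in 𝓝 (T₀, c₀), (T₀ / 2 < x.1 ∧ x.1 < 2 * T₀) ∧
      ∀ j, |x.2 j| ≤ R := by
    have h1 : ∀ᶠ x : ℝ × (Fin n → ℝ) in 𝓝 (T₀, c₀), T₀ / 2 < x.1 ∧ x.1 < 2 * T₀ := by
      have h2 : Set.Ioo (T₀ / 2) (2 * T₀) ∈ 𝓝 T₀ := Ioo_mem_nhds (by linarith) (by linarith)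
      exact (continuous_fst.tendsto ((T₀, c₀) : ℝ × (Fin n → ℝ))) h2
    have h3 : ∀ᶠ x : ℝ × (Fin n → ℝ) in 𝓝 (T₀, c₀), ‖x.2 - c₀‖ < 1 := by
      have h4 : ContinuousAt (fun x : ℝ × (Fin n → ℝ) => ‖x.2 - c₀‖) (T₀, c₀) :=
        (Continuous.norm (continuous_snd.sub continuous_const)).continuousAt
      have h5 := h4.eventually (gt_mem_nhds (show ‖((T₀, c₀) : ℝ × (Fin n → ℝ)).2 - c₀‖ < 1 by
        simp))
      exact h5
    filter_upwards [h1, h3] with x h4 h5
    refine ⟨h4, fun j => ?_⟩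
    have h6 : ‖x.2‖ ≤ ‖x.2 - c₀‖ + ‖c₀‖ := by
      have := norm_add_le (x.2 - c₀) c₀
      rwa [sub_add_cancel] at this
    have h7 := norm_le_pi_norm x.2 j
    rw [Real.norm_eq_abs] at h7
    linarith
  set A : ℝ := 4 ^ (κ + 1) * (24 ^ 4 * (576 * (1 + R) ^ 4) ^ n) with hA
  change ContinuousAt (fun x : ℝ × (Fin n → ℝ) =>
    ∫ t in Set.Ioi (0:ℝ), om κ (κ / x.1) t * (Xz t ^ 4 * ∏ j, ff (t + x.2 j))) (T₀, c₀)
  refine continuousAt_of_dominated (bound := fun t => A * (om κ (κ / (2 * T₀)) t *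
    (1 + t) ^ (8 + 4 * n))) ?_ ?_ ?_ ?_
  · refine Eventually.of_forall fun x => Continuous.aestronglyMeasurable ?_
    refine (om_cont _ _).mul ((zeta_cont.norm.pow 4).mul ?_)
    exact continuous_finsetProd _ fun j _ => ff_cont.comp (continuous_id.add continuous_const)
  · filter_upwards [hnhds] with x hx
    rw [ae_restrict_iff' measurableSet_Ioi]
    refine ae_of_all _ fun t ht => ?_
    have ht' : 0 < t := ht
    have hx1 : 0 < x.1 := by linarith [hx.1.1]
    have h1 := om_le κ hκ hT₀' hx.1.1 hx.1.2 ht'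
    have h0 : 0 ≤ om κ (κ / x.1) t := om_nonneg κ (by positivity) ht'.le
    have h2 : Xz t ^ 4 ≤ 24 ^ 4 * (1 + t) ^ 8 := by
      have h3 := zeta_bound t
      rw [abs_of_pos ht'] at h3
      calc Xz t ^ 4 ≤ (24 * (1 + t) ^ 2) ^ 4 := pow_le_pow_left₀ (norm_nonneg _) h3 4
        _ = _ := by ring
    have h3 : ∏ j, ff (t + x.2 j) ≤ (576 * (1 + R) ^ 4) ^ n * (1 + t) ^ (4 * n) := by
      have h4 : ∀ j, ff (t + x.2 j) ≤ 576 * (1 + R) ^ 4 * (1 + t) ^ 4 := by
        intro j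
        refine (ff_bound _).trans ?_
        rw [mul_assoc, ← mul_pow]
        refine mul_le_mul_of_nonneg_left (pow_le_pow_left₀ (by positivity) ?_ 4) (by norm_num)
        have h5 : |t + x.2 j| ≤ t + R := by
          refine (abs_add_le _ _).trans ?_
          rw [abs_of_pos ht']
          linarith [hx.2 j]
        nlinarith
      calc ∏ j, ff (t + x.2 j) ≤ ∏ _j : Fin n, 576 * (1 + R) ^ 4 * (1 + t) ^ 4 :=
            Finset.prod_le_prod (fun j _ => ff_nonneg _) fun j _ => h4 j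
        _ = _ := by
            rw [Finset.prod_const, Finset.card_univ, Fintype.card_fin, mul_pow, ← pow_mul]
    have h4 : 0 ≤ ∏ j, ff (t + x.2 j) := Finset.prod_nonneg fun j _ => ff_nonneg _
    have h5 : 0 ≤ Xz t ^ 4 := pow_nonneg (norm_nonneg _) 4
    rw [Real.norm_eq_abs, abs_of_nonneg (mul_nonneg h0 (mul_nonneg h5 h4))]
    have h6 : Xz t ^ 4 * ∏ j, ff (t + x.2 j) ≤
        (24 ^ 4 * (1 + t) ^ 8) * ((576 * (1 + R) ^ 4) ^ n * (1 + t) ^ (4 * n)) :=
      mul_le_mul h2 h3 h4 (by positivity)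
    calc om κ (κ / x.1) t * (Xz t ^ 4 * ∏ j, ff (t + x.2 j))
        ≤ (4 ^ (κ + 1) * om κ (κ / (2 * T₀)) t) *
          ((24 ^ 4 * (1 + t) ^ 8) * ((576 * (1 + R) ^ 4) ^ n * (1 + t) ^ (4 * n))) :=
          mul_le_mul h1 h6 (mul_nonneg h5 h4) (mul_nonneg (by positivity)
            (om_nonneg κ (by positivity) ht'.le))
      _ = _ := by
          rw [hA, pow_add]
          ring
  · exact (om_poly κ (8 + 4 * n) (by positivity)).const_mul A
  · refine ae_of_all _ fun t => ?_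
    have h1 : ContinuousAt (fun x : ℝ × (Fin n → ℝ) => om κ (κ / x.1) t) (T₀, c₀) := by
      have h2 : ContinuousAt (fun x : ℝ × (Fin n → ℝ) => (κ : ℝ) / x.1) (T₀, c₀) :=
        ContinuousAt.div continuousAt_const continuous_fst.continuousAt hT₀'.ne'
      have h3 : Continuous (fun δ : ℝ => om κ δ t) := by
        unfold om
        fun_prop
      exact h3.continuousAt.comp h2
    refine h1.mul (ContinuousAt.mul continuousAt_const (Continuous.continuousAt ?_))
    refine continuous_finsetProd _ fun j _ => ff_cont.comp (continuous_const.add ?_)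
    exact (continuous_apply j).comp continuous_snd

end Pool.Agent.Y77.SX
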